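import Pool.Agent.Helper25.HV.Defs

/-!
# Large gaps, `λ = 13/5`, block RSc: the quadratic forms of the resonator as sums over configurations
-/

set_option autoImplicit false

open Finset

namespace Pool.Agent.Helper30.HV

open Pool.Agent.Helper69.HG Pool.Agent.Helper25.HV

/-- extension by zero -/
noncomputable def cx {A : Finset ℕ} (c : A → Fin 3) (p : ℕ) : Fin 3 := if h : p ∈ A then c ⟨p, h⟩ else 0

theorem cx_coe {A : Finset ℕ} (c : A → Fin 3) (p : A) : cx c p = c p := by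
  unfold cx
  rw [dif_pos p.2]

/-- the primes with state `i` -/
noncomputable def st {A : Finset ℕ} (c : A → Fin 3) (i : Fin 3) : Finset ℕ := A.filter (fun p => cx c p = i)

/-- the support -/
noncomputable def sp {A : Finset ℕ} (c : A → Fin 3) : Finset ℕ := A.filter (fun p => cx c p ≠ 0)

/-- the weight of a function -/
noncomputable def ww (D : Dat) (T : ℝ) {A : Finset ℕ} (c : A → Fin 3) : ℝ :=
  ((∏ p ∈ st c 1, D.k1 (ixD D T p)) * D.Q1 (∑ p ∈ st c 1, ixD D T p)) *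
    ((∏ p ∈ st c 2, D.k2 (ixD D T p)) * D.Q2 (∑ p ∈ st c 2, ixD D T p))

theorem fin3 (a : Fin 3) : a = 0 ∨ a = 1 ∨ a = 2 := by
  fin_cases a
  · exact Or.inl rfl
  · exact Or.inr (Or.inl rfl)
  · exact Or.inr (Or.inr rfl)

theorem sp_sdiff {A : Finset ℕ} (c : A → Fin 3) : sp c \ st c 1 = st c 2 := by
  ext p
  unfold sp st
  rw [mem_sdiff, mem_filter, mem_filter, mem_filter]
  rcases fin3 (cx c p) with h | h | h <;> rw [h] <;> simp

theorem st_sub {A : Finset ℕ} (c : A → Fin 3) : st c 1 ⊆ sp c := by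
  intro p hp
  unfold sp st at *
  rw [mem_filter] at *
  refine ⟨hp.1, ?_⟩
  rw [hp.2]
  decide

theorem mem_AAD {D : Dat} (hD : Ok D) {T : ℝ} (hT : 1 < T) {p : ℕ} : p ∈ AAD D T ↔ Adm D T p := by
  classical
  unfold AAD
  rw [mem_filter, Finset.mem_Icc]
  refine ⟨fun h => h.2, fun h => ⟨⟨h.1.one_lt.le, ?_⟩, h⟩⟩
  have hp0 : (0:ℝ) < p := by exact_mod_cast h.1.pos
  have hL := Real.log_pos hT
  have hlp : 0 ≤ Real.log p := Real.log_nonneg (by exact_mod_cast h.1.one_lt.le)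
  have h1 : D.S * Real.log p / Real.log T ≤ D.B := by
    have h2 := h.2.2
    unfold ixD at h2
    rw [Nat.ceil_le] at h2
    exact_mod_cast h2
  rw [div_le_iff₀ hL] at h1
  have hB : (1:ℝ) ≤ D.B := by exact_mod_cast hD.B1
  have hBS : 3 * (D.B : ℝ) ≤ D.S := by exact_mod_cast hD.BS
  have h3 : Real.log p ≤ Real.log T := by
    have h4 : 3 * (D.B : ℝ) * Real.log p ≤ D.S * Real.log p := mul_le_mul_of_nonneg_right hBS hlp
    have h5 : (D.B : ℝ) * (3 * Real.log p) ≤ D.B * Real.log T := by linarith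
    have h6 : 3 * Real.log p ≤ Real.log T := le_of_mul_le_mul_left h5 (by linarith)
    linarith
  rw [Nat.le_floor_iff (by linarith)]
  exact (Real.log_le_log_iff hp0 (by linarith)).1 h3

section
variable {S : Finset ℕ}
theorem pf_prod (hS : ∀ p ∈ S, p.Prime) : (∏ p ∈ S, p).primeFactors = S := Nat.primeFactors_prod hS
theorem sq_prod (hS : ∀ p ∈ S, p.Prime) : Squarefree (∏ p ∈ S, p) := by
  refine Finset.squarefree_prod_of_pairwise_isCoprime (fun p hp q hq hpq => ?_) fun p hp => (hS p hp).squarefree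
  exact Nat.coprime_iff_isRelPrime.1 ((Nat.coprime_primes (hS p hp) (hS q hq)).2 hpq)

/-- divisors of a product of distinct primes -/
theorem sum_div (hS : ∀ p ∈ S, p.Prime) (f : ℕ → ℕ → ℝ) :
    ∑ d ∈ (∏ p ∈ S, p).divisors, f d ((∏ p ∈ S, p) / d) = ∑ U ∈ S.powerset, f (∏ p ∈ U, p) (∏ p ∈ S \ U, p) := by
  have hsq := sq_prod hS
  refine Finset.sum_bij' (fun d _ => d.primeFactors) (fun U _ => ∏ p ∈ U, p) ?_ ?_ ?_ ?_ ?_
  · intro d hd
    rw [Nat.mem_divisors] at hd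
    rw [mem_powerset]
    have h := Nat.primeFactors_mono hd.1 hd.2
    rwa [pf_prod hS] at h
  · intro U hU
    rw [mem_powerset] at hU
    rw [Nat.mem_divisors]
    exact ⟨Finset.prod_dvd_prod_of_subset _ _ _ hU, hsq.ne_zero⟩
  · intro d hd
    rw [Nat.mem_divisors] at hd
    exact Nat.prod_primeFactors_of_squarefree (hsq.squarefree_of_dvd hd.1)
  · intro U hU
    rw [mem_powerset] at hU
    exact pf_prod fun p hp => hS p (hU hp)
  · intro d hd
    rw [Nat.mem_divisors] at hd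
    have h1 : ∏ p ∈ d.primeFactors, p = d := Nat.prod_primeFactors_of_squarefree (hsq.squarefree_of_dvd hd.1)
    have h2 : d.primeFactors ⊆ S := by
      have h := Nat.primeFactors_mono hd.1 hd.2
      rwa [pf_prod hS] at h
    have h3 : (∏ p ∈ S \ d.primeFactors, p) * d = ∏ p ∈ S, p := by
      conv_lhs => rw [← h1]
      have h4 := Finset.prod_sdiff (f := fun p : ℕ => p) h2
      rw [pf_prod (fun p hp => Nat.prime_of_mem_primeFactors hp)]
      exact h4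
    have hd0 : 0 < d := Nat.pos_of_dvd_of_pos hd.1 (Nat.pos_of_ne_zero hd.2)
    show f d ((∏ p ∈ S, p) / d) = f (∏ p ∈ d.primeFactors, p) (∏ p ∈ S \ d.primeFactors, p)
    rw [h1]
    congr 1
    exact Nat.div_eq_of_eq_mul_left hd0 h3.symm

end
theorem wt_prod (D : Dat) (T : ℝ) (k Q : ℕ → ℝ) {U : Finset ℕ} (hU : ∀ p ∈ U, p.Prime) :
    wtD D T k Q (∏ p ∈ U, p) = (∏ p ∈ U, k (ixD D T p)) * Q (∑ p ∈ U, ixD D T p) := by
  unfold wtD
  rw [pf_prod hU]
theorem rD_prod {D : Dat} (hD : Ok D) {T : ℝ} (hT : 1 < T) {S : Finset ℕ} (hS : S ⊆ AAD D T) :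
    rD D T (∏ p ∈ S, p) = ∑ U ∈ S.powerset, ((∏ p ∈ U, D.k1 (ixD D T p)) * D.Q1 (∑ p ∈ U, ixD D T p)) *
      ((∏ p ∈ S \ U, D.k2 (ixD D T p)) * D.Q2 (∑ p ∈ S \ U, ixD D T p)) := by
  have hpr : ∀ p ∈ S, p.Prime := fun p hp => ((mem_AAD hD hT).1 (hS hp)).1
  have hc : Squarefree (∏ p ∈ S, p) ∧ ∀ p ∈ (∏ p ∈ S, p).primeFactors, Adm D T p := by
    refine ⟨sq_prod hpr, fun p hp => ?_⟩
    rw [pf_prod hpr] at hp
    exact (mem_AAD hD hT).1 (hS hp)
  unfold rD
  rw [if_pos hc, sum_div hpr (fun d e => wtD D T D.k1 D.Q1 d * wtD D T D.k2 D.Q2 e)]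
  refine Finset.sum_congr rfl fun U hU => ?_
  rw [mem_powerset] at hU
  rw [wt_prod D T _ _ fun p hp => hpr p (hU hp), wt_prod D T _ _ fun p hp => hpr p (mem_sdiff.1 hp).1]

/-- the functions with given support -/
theorem fiber {D : Dat} (hD : Ok D) {T : ℝ} (hT : 1 < T) {S : Finset ℕ} (hS : S ⊆ AAD D T) :
    ∑ c ∈ (Finset.univ : Finset (AAD D T → Fin 3)).filter (fun c => sp c = S), ww D T c = rD D T (∏ p ∈ S, p) := by
  classical
  rw [rD_prod hD hT hS]
  refine Finset.sum_bij' (fun c _ => st c 1)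
    (fun U _ => fun p => if (p : ℕ) ∈ U then 1 else if (p : ℕ) ∈ S then 2 else 0) ?_ ?_ ?_ ?_ ?_
  · intro c hc
    rw [mem_filter] at hc
    rw [mem_powerset, ← hc.2]
    exact st_sub c
  · intro U hU
    rw [mem_powerset] at hU
    rw [mem_filter]
    refine ⟨mem_univ _, ?_⟩
    ext p
    unfold sp
    rw [mem_filter]
    constructor
    · rintro ⟨hp, h⟩
      unfold cx at h
      rw [dif_pos hp] at h
      by_contra hpS
      have hpU : p ∉ U := fun h' => hpS (hU h')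
      simp [hpS, hpU] at h
    · intro hp
      refine ⟨hS hp, ?_⟩
      unfold cx
      rw [dif_pos (hS hp)]
      by_cases hpU : p ∈ U <;> simp [hp, hpU]
  · intro c hc
    rw [mem_filter] at hc
    funext p
    have hp := cx_coe c p
    have m1 : (p : ℕ) ∈ st c 1 ↔ c p = 1 := by
      unfold st
      rw [mem_filter, hp]
      exact ⟨fun h => h.2, fun h => ⟨p.2, h⟩⟩
    have m2 : (p : ℕ) ∈ S ↔ c p ≠ 0 := by
      rw [← hc.2]
      unfold sp
      rw [mem_filter, hp]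
      exact ⟨fun h => h.2, fun h => ⟨p.2, h⟩⟩
    show (if (p : ℕ) ∈ st c 1 then (1 : Fin 3) else if (p : ℕ) ∈ S then 2 else 0) = c p
    rcases fin3 (c p) with h | h | h
    · rw [if_neg (by rw [m1, h]; decide), if_neg (by rw [m2, h]; decide), h]
    · rw [if_pos (m1.2 h), h]
    · rw [if_neg (by rw [m1, h]; decide), if_pos (m2.2 (by rw [h]; decide)), h]
  · intro U hU
    rw [mem_powerset] at hU
    ext p
    show p ∈ st _ 1 ↔ p ∈ U
    unfold st
    rw [mem_filter]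
    constructor
    · rintro ⟨hp, h⟩
      unfold cx at h
      rw [dif_pos hp] at h
      by_contra hpU
      by_cases hpS : p ∈ S <;> simp [hpS, hpU] at h
    · intro hp
      refine ⟨hS (hU hp), ?_⟩
      unfold cx
      rw [dif_pos (hS (hU hp))]
      simp [hp]
  · intro c hc
    rw [mem_filter] at hc
    show ww D T c = _
    unfold ww
    rw [← hc.2, sp_sdiff]

/-- a sum over the numbers of the resonator is a sum over functions -/
theorem sum_rD {D : Dat} (hD : Ok D) {T : ℝ} (hT : 1 < T) {X : ℕ} (hX : ∀ n, rD D T n ≠ 0 → n ≤ X) (G : ℕ → ℝ) :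
    ∑ n ∈ Finset.Icc 1 X, rD D T n * G n = ∑ c : AAD D T → Fin 3, ww D T c * G (∏ p ∈ sp c, p) := by
  classical
  have e1 : ∑ n ∈ Finset.Icc 1 X, rD D T n * G n =
      ∑ S ∈ (AAD D T).powerset, rD D T (∏ p ∈ S, p) * G (∏ p ∈ S, p) := by
    symm
    refine Finset.sum_bij_ne_zero (fun S _ _ => ∏ p ∈ S, p) ?_ ?_ ?_ ?_
    · intro S hS h0
      have hpr : ∀ p ∈ S, p.Prime := fun p hp => ((mem_AAD hD hT).1 (mem_powerset.1 hS hp)).1
      rw [Finset.mem_Icc]
      exact ⟨Finset.prod_pos fun p hp => (hpr p hp).pos, hX _ fun h => h0 (by rw [h, zero_mul])⟩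
    · intro S hS _ S' hS' _ he
      have hpr : ∀ p ∈ S, p.Prime := fun p hp => ((mem_AAD hD hT).1 (mem_powerset.1 hS hp)).1
      have hpr' : ∀ p ∈ S', p.Prime := fun p hp => ((mem_AAD hD hT).1 (mem_powerset.1 hS' hp)).1
      rw [← pf_prod hpr, ← pf_prod hpr']
      exact congrArg _ he
    · intro h hh h0
      have hr : rD D T h ≠ 0 := fun h1 => h0 (by rw [h1, zero_mul])
      have hc : Squarefree h ∧ ∀ p ∈ h.primeFactors, Adm D T p := by
        by_contra h1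
        refine hr ?_
        unfold rD
        rw [if_neg h1]
      have he : ∏ p ∈ h.primeFactors, p = h := Nat.prod_primeFactors_of_squarefree hc.1
      refine ⟨h.primeFactors, mem_powerset.2 fun p hp => (mem_AAD hD hT).2 (hc.2 p hp), ?_, he⟩
      rw [he]
      exact h0
    · intro S hS _
      rfl
  rw [e1, ← Finset.sum_fiberwise_of_maps_to (s := (Finset.univ : Finset (AAD D T → Fin 3))) (t := (AAD D T).powerset)
    (g := fun c => sp c) (fun c _ => mem_powerset.2 (Finset.filter_subset _ _))]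
  refine Finset.sum_congr rfl fun S hS => ?_
  rw [← fiber hD hT (mem_powerset.1 hS), Finset.sum_mul]
  refine Finset.sum_congr rfl fun c hc => ?_
  rw [mem_filter] at hc
  rw [hc.2]

/-- greatest common divisor and least common multiple of two products -/
theorem gcd_lcm {S S' : Finset ℕ} (hS : ∀ p ∈ S, p.Prime) (hS' : ∀ p ∈ S', p.Prime) :
    Nat.gcd (∏ p ∈ S, p) (∏ p ∈ S', p) = ∏ p ∈ S ∩ S', p ∧ Nat.lcm (∏ p ∈ S, p) (∏ p ∈ S', p) = ∏ p ∈ S ∪ S', p := by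
  have e1 : ∏ p ∈ S, p = (∏ p ∈ S ∩ S', p) * ∏ p ∈ S \ S', p := by
    rw [← Finset.prod_inter_mul_prod_sdiff S S']
  have e2 : ∏ p ∈ S', p = (∏ p ∈ S ∩ S', p) * ∏ p ∈ S' \ S, p := by
    rw [← Finset.prod_inter_mul_prod_sdiff S' S, Finset.inter_comm]
  have hc : Nat.Coprime (∏ p ∈ S \ S', p) (∏ p ∈ S' \ S, p) := by
    refine Nat.Coprime.prod_left fun p hp => Nat.Coprime.prod_right fun q hq => ?_
    rw [Finset.mem_sdiff] at hp hq
    refine (Nat.coprime_primes (hS p hp.1) (hS' q hq.1)).2 fun h => ?_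
    exact hq.2 (h ▸ hp.1)
  have hg : Nat.gcd (∏ p ∈ S, p) (∏ p ∈ S', p) = ∏ p ∈ S ∩ S', p := by
    rw [e1, e2, Nat.gcd_mul_left, Nat.Coprime.gcd_eq_one hc, mul_one]
  refine ⟨hg, ?_⟩
  have h1 := Nat.gcd_mul_lcm (∏ p ∈ S, p) (∏ p ∈ S', p)
  rw [hg, ← Finset.prod_union_inter, mul_comm] at h1
  exact Nat.eq_of_mul_eq_mul_right (Finset.prod_pos fun p hp => (hS p (mem_inter.1 hp).1).pos) h1
theorem cast_rpow (S : Finset ℕ) (s : ℝ) : ((∏ p ∈ S, p : ℕ) : ℝ) ^ s = ∏ p ∈ S, (p : ℝ) ^ s := by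
  rw [Nat.cast_prod, Real.finsetProd_rpow _ _ fun p _ => Nat.cast_nonneg p]

/-- local factor -/
noncomputable def lw (σ τ : ℝ) (a b : Fin 3) (p : ℕ) : ℝ :=
  if a = 0 ∧ b = 0 then 1 else (p : ℝ) ^ (-2 * (if a ≠ 0 ∧ b ≠ 0 then σ else τ))
theorem sp_union {A : Finset ℕ} (c c' : A → Fin 3) : sp c ∪ sp c' = A.filter (fun p => cx c p ≠ 0 ∨ cx c' p ≠ 0) := by
  unfold sp
  rw [← Finset.filter_or]
theorem sp_inter {A : Finset ℕ} (c c' : A → Fin 3) : sp c ∩ sp c' = A.filter (fun p => cx c p ≠ 0 ∧ cx c' p ≠ 0) := by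
  unfold sp
  rw [← Finset.filter_and]
theorem lcm_lw {A : Finset ℕ} (hA : ∀ p ∈ A, p.Prime) (c c' : A → Fin 3) (σ : ℝ) :
    (Nat.lcm (∏ p ∈ sp c, p) (∏ p ∈ sp c', p) : ℝ) ^ (-2 * σ) = ∏ p ∈ A, lw σ σ (cx c p) (cx c' p) p := by
  have h1 : ∀ p ∈ sp c, p.Prime := fun p hp => hA p (mem_filter.1 hp).1
  have h2 : ∀ p ∈ sp c', p.Prime := fun p hp => hA p (mem_filter.1 hp).1
  rw [(gcd_lcm h1 h2).2, cast_rpow, sp_union, Finset.prod_filter]
  refine Finset.prod_congr rfl fun p _ => ?_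
  unfold lw
  by_cases ha : cx c p = 0 <;> by_cases hb : cx c' p = 0 <;> simp [ha, hb]
theorem gcd_lw {A : Finset ℕ} (hA : ∀ p ∈ A, p.Prime) (c c' : A → Fin 3) (σ : ℝ) :
    (Nat.gcd (∏ p ∈ sp c, p) (∏ p ∈ sp c', p) : ℝ) ^ (1 - 2 * σ) / (Nat.lcm (∏ p ∈ sp c, p) (∏ p ∈ sp c', p) : ℝ) =
      ∏ p ∈ A, lw σ (1 / 2) (cx c p) (cx c' p) p := by
  have h1 : ∀ p ∈ sp c, p.Prime := fun p hp => hA p (mem_filter.1 hp).1
  have h2 : ∀ p ∈ sp c', p.Prime := fun p hp => hA p (mem_filter.1 hp).1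
  have e1 : ((∏ p ∈ sp c ∪ sp c', p : ℕ) : ℝ)⁻¹ = ∏ p ∈ sp c ∪ sp c', (p : ℝ) ^ (-1 : ℝ) := by
    rw [← cast_rpow, Real.rpow_neg_one]
  rw [(gcd_lcm h1 h2).1, (gcd_lcm h1 h2).2, div_eq_mul_inv, e1, cast_rpow, sp_union, sp_inter, Finset.prod_filter,
    Finset.prod_filter, ← Finset.prod_mul_distrib]
  refine Finset.prod_congr rfl fun p hp => ?_
  have hp0 : (0:ℝ) < p := by exact_mod_cast (hA p hp).pos
  have e2 : (p : ℝ) ^ (1 - 2 * σ) * (p : ℝ) ^ (-1 : ℝ) = (p : ℝ) ^ (-2 * σ) := by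
    rw [← Real.rpow_add hp0]
    congr 1
    ring
  have e3 : (-2 * (1 / 2) : ℝ) = -1 := by norm_num
  unfold lw
  by_cases ha : cx c p = 0 <;> by_cases hb : cx c' p = 0
  · simp [ha, hb]
  · rw [if_neg (fun h => h.1 ha), if_pos (Or.inr hb), if_neg (fun h => hb h.2), if_neg (fun h => h.1 ha), e3, one_mul]
  · rw [if_neg (fun h => h.2 hb), if_pos (Or.inl ha), if_neg (fun h => ha h.1), if_neg (fun h => h.2 hb), e3, one_mul]
  · rw [if_pos ⟨ha, hb⟩, if_pos (Or.inl ha), if_neg (fun h => ha h.1), if_pos ⟨ha, hb⟩, e2]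
theorem kk_prod (D : Dat) (T : ℝ) {A : Finset ℕ} (c : A → Fin 3) : ∏ p : A, kk D T (c p) p =
    (∏ p ∈ st c 1, D.k1 (ixD D T p)) * ∏ p ∈ st c 2, D.k2 (ixD D T p) := by
  have e1 : ∏ p : A, kk D T (c p) p = ∏ p ∈ A, kk D T (cx c p) p := by
    rw [← Finset.prod_coe_sort A (fun p => kk D T (cx c p) p)]
    exact Finset.prod_congr rfl fun p _ => by rw [cx_coe]
  rw [e1]
  unfold st
  rw [Finset.prod_filter, Finset.prod_filter, ← Finset.prod_mul_distrib]
  refine Finset.prod_congr rfl fun p _ => ?_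
  unfold kk
  rcases fin3 (cx c p) with h | h | h <;> rw [h] <;> simp
theorem st_sum (D : Dat) (T : ℝ) {A : Finset ℕ} (c : A → Fin 3) (i : Fin 3) :
    ∑ p ∈ st c i, ixD D T p = ∑ p : A, if c p = i then ixD D T p else 0 := by
  unfold st
  rw [Finset.sum_filter, ← Finset.sum_coe_sort A (fun p => if cx c p = i then ixD D T p else 0)]
  exact Finset.sum_congr rfl fun p _ => by rw [cx_coe]
theorem vst_fst (D : Dat) (T : ℝ) {A : Finset ℕ} (e : A → Fin 3 × Fin 3) (i : Fin 3) :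
    vst D T e (i, 1) + vst D T e (i, 2) + vst D T e (i, 0) = ∑ p ∈ st (fun p => (e p).1) i, ixD D T p := by
  rw [st_sum]
  unfold vst
  rw [← Finset.sum_add_distrib, ← Finset.sum_add_distrib]
  refine Finset.sum_congr rfl fun p _ => ?_
  rcases he : e p with ⟨a, b⟩
  by_cases ha : a = i
  · subst ha
    rcases fin3 b with h | h | h <;> rw [h] <;> simp
  · simp [ha]
theorem vst_snd (D : Dat) (T : ℝ) {A : Finset ℕ} (e : A → Fin 3 × Fin 3) (j : Fin 3) :
    vst D T e (1, j) + vst D T e (2, j) + vst D T e (0, j) = ∑ p ∈ st (fun p => (e p).2) j, ixD D T p := by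
  rw [st_sum]
  unfold vst
  rw [← Finset.sum_add_distrib, ← Finset.sum_add_distrib]
  refine Finset.sum_congr rfl fun p _ => ?_
  rcases he : e p with ⟨a, b⟩
  by_cases hb : b = j
  · subst hb
    rcases fin3 a with h | h | h <;> rw [h] <;> simp
  · simp [hb]

/-- the summand of a configuration -/
theorem cfg_term (D : Dat) (T σ τ : ℝ) {A : Finset ℕ} (e : A → Fin 3 × Fin 3) :
    (∏ p : A, WD D T σ τ (e p) p) * FD D (vst D T e) = ww D T (fun p => (e p).1) * ww D T (fun p => (e p).2) *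
      ∏ p ∈ A, lw σ τ (cx (fun p => (e p).1) p) (cx (fun p => (e p).2) p) p := by
  have e1 : ∏ p : A, WD D T σ τ (e p) p = (∏ p : A, kk D T (e p).1 p) * (∏ p : A, kk D T (e p).2 p) *
      ∏ p ∈ A, lw σ τ (cx (fun p => (e p).1) p) (cx (fun p => (e p).2) p) p := by
    rw [← Finset.prod_coe_sort A (fun p => lw σ τ (cx (fun p => (e p).1) p) (cx (fun p => (e p).2) p) p),
      ← Finset.prod_mul_distrib, ← Finset.prod_mul_distrib]
    refine Finset.prod_congr rfl fun p _ => ?_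
    rw [cx_coe, cx_coe]
    rcases he : e p with ⟨a, b⟩
    unfold WD lw
    by_cases h : a = 0 ∧ b = 0
    · rw [h.1, h.2]
      simp [kk]
    · rw [if_neg h, if_neg (fun h' => h ⟨congrArg Prod.fst h', congrArg Prod.snd h'⟩)]
  rw [e1, kk_prod D T (fun p => (e p).1), kk_prod D T (fun p => (e p).2)]
  unfold FD ww
  rw [vst_fst, vst_fst, vst_snd, vst_snd]
  ring
theorem cfg_pairs (D : Dat) (T σ τ : ℝ) : CFG D T σ τ = ∑ c : AAD D T → Fin 3, ∑ c' : AAD D T → Fin 3,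
    ww D T c * ww D T c' * ∏ p ∈ AAD D T, lw σ τ (cx c p) (cx c' p) p := by
  rw [← Fintype.sum_prod_type' (f := fun (c c' : AAD D T → Fin 3) =>
    ww D T c * ww D T c' * ∏ p ∈ AAD D T, lw σ τ (cx c p) (cx c' p) p)]
  unfold CFG
  exact Fintype.sum_equiv (Equiv.arrowProdEquivProdArrow _ _ _) _ _ fun e => cfg_term D T σ τ e

/-- the general form of both identities -/
theorem forms {D : Dat} (hD : Ok D) {T : ℝ} (hT : 1 < T) {X : ℕ} (hX : ∀ n, rD D T n ≠ 0 → n ≤ X) (σ τ : ℝ)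
    (G : ℕ → ℕ → ℝ) (hG : ∀ c c' : AAD D T → Fin 3, G (∏ p ∈ sp c, p) (∏ p ∈ sp c', p) =
      ∏ p ∈ AAD D T, lw σ τ (cx c p) (cx c' p) p) :
    ∑ h ∈ Finset.Icc 1 X, ∑ k ∈ Finset.Icc 1 X, rD D T h * rD D T k * G h k = CFG D T σ τ := by
  have e1 : ∑ h ∈ Finset.Icc 1 X, ∑ k ∈ Finset.Icc 1 X, rD D T h * rD D T k * G h k =
      ∑ h ∈ Finset.Icc 1 X, rD D T h * ∑ k ∈ Finset.Icc 1 X, rD D T k * G h k := by
    refine Finset.sum_congr rfl fun h _ => ?_
    rw [Finset.mul_sum]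
    exact Finset.sum_congr rfl fun k _ => by ring
  rw [e1, sum_rD hD hT hX, cfg_pairs]
  refine Finset.sum_congr rfl fun c _ => ?_
  rw [sum_rD hD hT hX (fun k => G (∏ p ∈ sp c, p) k), Finset.mul_sum]
  refine Finset.sum_congr rfl fun c' _ => ?_
  rw [hG]
  ring

/-- block RSc -/
theorem rsc : RSc := by
  intro D hD T hT X hX σ
  have hA : ∀ p ∈ AAD D T, p.Prime := fun p hp => ((mem_AAD hD hT).1 hp).1
  constructor
  · unfold Ql
    exact forms hD hT hX σ σ (fun h k => (Nat.lcm h k : ℝ) ^ (-2 * σ)) fun c c' => lcm_lw hA c c' σ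
  · unfold Qg
    exact forms hD hT hX σ (1 / 2) (fun h k => (Nat.gcd h k : ℝ) ^ (1 - 2 * σ) / Nat.lcm h k) fun c c' => gcd_lw hA c c' σ

end Pool.Agent.Helper30.HV
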